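import Pool.Agent.Q22.Entropy

/-! If the algebraic entropy `ent` of the restriction to an infinite-index subgroup is finite,
then `ent` vanishes. -/

namespace Pool.Agent.Results.MP_2cfe26_al.EntVanishing

open Q22.Entropy

/-- Let `G` be an amenable group acting on an abelian group `A` by automorphisms and let `H` be
any subgroup of infinite index (`H.index = 0` in Mathlib's convention). If
`ent(α↾H) < ∞` then `ent(α) = 0`. -/
theorem result :
    ∀ (G A : Type*) [Group G] [AddCommGroup A] [DistribMulAction G A],
      IsAmenable G → ∀ H : Subgroup G, H.index = 0 → ent H A < ⊤ → ent G A = 0 := by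
  intro G A _ _ _ hG H hH hfin
  exact ent_eq_zero hG H hH hfin

end Pool.Agent.Results.MP_2cfe26_al.EntVanishing
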